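import Pool.Agent.helper35.DR.SpecK

/-!
# Project dr: KPG
-/

set_option autoImplicit false

namespace Pool.Agent.DR

open Pool.Agent.helper58.DC Pool.Agent.DI

section

variable {Q : Type} [Group Q]

theorem KPG_pow {N : Subgroup Q} {β : Q → Q → ℂˣ} {V : Type} [AddCommGroup V] [Module ℂ V]
    {S : Q → Module.End ℂ V} (h1 : S 1 = 1)
    (hS : ∀ n ∈ N, ∀ n' ∈ N, S n * S n' = ((β n n' : ℂˣ) : ℂ) • S (n * n'))
    {x : Q} (hx : x ∈ N) (j : ℕ) : ∃ c : ℂˣ, S x ^ j = (c : ℂ) • S (x ^ j) := by
  induction j with
  | zero => exact ⟨1, by simp [h1]⟩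
  | succ j ih =>
    obtain ⟨c, hc⟩ := ih
    refine ⟨c * β (x ^ j) x, ?_⟩
    rw [pow_succ, hc, smul_mul_assoc, hS _ (N.pow_mem hx j) _ hx, smul_smul, ← pow_succ, Units.val_mul]

/-- Commutation with a power. -/
theorem KPG_comm {V : Type} [AddCommGroup V] [Module ℂ V] {f g : Module.End ℂ V} {w : ℂ}
    (h : f * g = w • (g * f)) (j : ℕ) : f ^ j * g = w ^ j • (g * f ^ j) := by
  induction j with
  | zero => simp
  | succ j ih =>
    rw [pow_succ, mul_assoc, h, mul_smul_comm, ← mul_assoc, ih, smul_mul_assoc, smul_smul,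
      mul_assoc, ← pow_succ, pow_succ w, mul_comm w]

end

theorem KPG (hKML : KML_stmt) (hKCM : KCM_stmt) : KPG_stmt := by
  classical
  intro Q _ _ N hN p _ hcomm hexp β hβ
  split_ifs with hK
  · have h := hKML Q N hN 1 β hK (fun k => (padicValNat p k : ℤ) = 0)
    rw [one_mul] at h
    exact h
  · unfold GN
    have hemp : IsEmpty {σ : Q → ℂ // ∃ k, PIrr N β σ k ∧ ((padicValNat p k : ℤ) = 0) ∧ PInv N β σ} := by
      refine ⟨?_⟩
      rintro ⟨σ, k, hσ, hk, hinv⟩
      refine hK ?_
      -- the representation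
      obtain ⟨V, _, _, _, S, h1, hS, hdim, htr⟩ := hσ.rep
      have hcard : (Nat.card N : ℂ) ≠ 0 := by
        exact_mod_cast Nat.card_pos.ne'
      have hk0 : k ≠ 0 := by
        intro h0
        rw [h0] at hdim
        have hsub : Subsingleton V := Module.finrank_zero_iff.1 hdim
        have hz : ∀ n ∈ N, σ n = 0 := by
          intro n hn
          rw [htr n hn]
          have : S n = 0 := by
            ext v
            exact Subsingleton.elim _ _
          rw [this, map_zero]
        have hnorm := hσ.norm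
        rw [finsum_mem_congr rfl (fun n hn => by rw [hz n hn, zero_mul, zero_mul] :
          ∀ n ∈ (N : Set Q), σ n * σ n⁻¹ * ((β n n⁻¹ : ℂˣ) : ℂ)⁻¹ = 0)] at hnorm
        rw [finsum_mem_zero] at hnorm
        exact hcard hnorm.symm
      have hpk : ¬ p ∣ k := by
        intro hd
        have h2 : padicValNat p k = 0 := by exact_mod_cast hk
        rcases padicValNat.eq_zero_iff.1 h2 with h | h | h
        · exact (Fact.out : p.Prime).one_lt.ne' h
        · exact hk0 h
        · exact h hd
      have hβ11 : ∀ x ∈ N, S x * S x⁻¹ = ((β x x⁻¹ : ℂˣ) : ℂ) • (1 : Module.End ℂ V) := by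
        intro x hx
        rw [hS x hx x⁻¹ (N.inv_mem hx), mul_inv_cancel, h1]
      have hdet : ∀ x ∈ N, LinearMap.det (S x) ≠ 0 := by
        intro x hx h0
        have h2 := congrArg LinearMap.det (hβ11 x hx)
        rw [map_mul, h0, zero_mul, LinearMap.det_smul, map_one, mul_one] at h2
        exact (pow_ne_zero _ (Units.ne_zero _)) h2.symm
      have hsym : ∀ x ∈ N, ∀ y ∈ N, β x y = β y x := by
        intro x hx y hy
        set w : ℂ := ((β x y : ℂˣ) : ℂ) * ((β y x : ℂˣ) : ℂ)⁻¹ with hw
        have hyx0 : ((β y x : ℂˣ) : ℂ) ≠ 0 := Units.ne_zero _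
        have hxy : S x * S y = w • (S y * S x) := by
          rw [hS x hx y hy, hS y hy x hx, smul_smul, hcomm x hx y hy, hw, inv_mul_cancel_right₀ hyx0]
        have hwk : w ^ k = 1 := by
          have h2 := congrArg LinearMap.det hxy
          rw [LinearMap.det_smul, map_mul, map_mul, mul_comm (LinearMap.det (S y)), hdim] at h2
          have h3 : LinearMap.det (S x) * LinearMap.det (S y) ≠ 0 :=
            mul_ne_zero (hdet x hx) (hdet y hy)
          exact mul_right_cancel₀ h3 (by rw [one_mul]; exact h2.symm)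
        have hwp : w ^ p = 1 := by
          obtain ⟨c, hc⟩ := KPG_pow h1 hS hx p
          rw [hexp x hx, h1] at hc
          have h2 := KPG_comm hxy p
          rw [hc, smul_mul_assoc, one_mul, mul_smul_comm, mul_one, smul_smul] at h2
          have hV : (1 : ℕ) ≤ Module.finrank ℂ V := by
            rw [hdim]; exact Nat.one_le_iff_ne_zero.2 hk0
          -- compare: c • S y = (w ^ p * c) • S y
          have h4 : ((c : ℂ) - w ^ p * c) • S y = 0 := by
            rw [sub_smul, h2, sub_self]
          rcases smul_eq_zero.1 h4 with h5 | h5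
          · have h6 : (1 - w ^ p) * (c : ℂ) = 0 := by rw [sub_mul, one_mul]; exact h5
            rcases mul_eq_zero.1 h6 with h7 | h7
            · exact (sub_eq_zero.1 h7).symm
            · exact absurd h7 (Units.ne_zero c)
          · exfalso
            have h6 := hdet y hy
            have hnt : Nontrivial V := Module.finrank_pos_iff.1 (show 0 < Module.finrank ℂ V from hV)
            rw [h5, LinearMap.det_zero''] at h6
            exact h6 rfl
        have hcop : Nat.Coprime k p := by
          rw [Nat.coprime_comm]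
          exact ((Fact.out : p.Prime).coprime_iff_not_dvd).2 hpk
        have hw1 : w = 1 := by
          have h2 : orderOf w ∣ k := orderOf_dvd_of_pow_eq_one hwk
          have h3 : orderOf w ∣ p := orderOf_dvd_of_pow_eq_one hwp
          have h4 : orderOf w ∣ 1 := by
            rw [← hcop.gcd_eq_one]
            exact Nat.dvd_gcd h2 h3
          exact orderOf_eq_one_iff.1 (Nat.dvd_one.1 h4)
        rw [hw] at hw1
        have h2 : ((β x y : ℂˣ) : ℂ) = ((β y x : ℂˣ) : ℂ) := by
          have h3 := congrArg (· * ((β y x : ℂˣ) : ℂ)) hw1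
          simpa [mul_assoc, inv_mul_cancel₀ hyx0] using h3
        exact Units.ext h2
      obtain ⟨_, b, hb1, hb2⟩ := hKCM Q N β hβ (fun x hx y hy => ⟨hsym x hx y hy, hcomm x hx y hy⟩)
        σ k hσ
      refine ⟨hβ, b, hb2, fun q n hn => ?_⟩
      have h2 := hinv q n hn
      rw [hb1 n hn, hb1 _ (hN.conj_mem n hn q)] at h2
      exact Units.ext (by rw [Units.val_mul]; exact h2)
    exact Nat.card_of_isEmpty

end Pool.Agent.DR
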